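import Mathlib
import Pool.Graph.R_pool_sql_team_39128cda.H.MP_58cc54_co.NT2
import Pool.Graph.R_pool_sql_team_39128cda.H.MP_58cc54_co.Game

/-!
# MP_58cc54_co: an explicit rate in the failure of the conjecture on `f⁺`

For infinitely many `n`, for every graph `H` containing a triangle, Enforcer can win the strict
`(1 : b)` game on `K_n` only if `b (log log n)^(1/8) ≤ 5 n^(3/2)`. The game lemma, the arithmetic of
the endgame and the sieve are the library's (imported); `no_divisor'` is an adapted copy of its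
`no_divisor`, with an explicit interval for `n`.
-/

set_option autoImplicit false

namespace Pool.Agent.Results.MP_58cc54_co.ExplicitRate

open Finset Pool.Agent.H.MP_58cc54_co

/-- `no_divisor` with an explicit interval for `n` -/
theorem no_divisor' (A C i M B : ℕ) (hA : 1 ≤ A) (hC : 1 ≤ C)
    (hM : M = (2 * C).factorial * (8 * C + 1).factorial) (hB : B = 8 * A * C)
    (hi : 1040 * C * i + (20 * C + 4 + 35 * 4096 * B * C + 4 * M + B) ≤ 2 ^ i) :
    ∃ n, (4 * C * (2 ^ (2 ^ (14 * i)) * 2 ^ (2 ^ (14 * i)))) ^ 2 ≤ n ∧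
      n < 2 * (4 * C * (2 ^ (2 ^ (14 * i)) * 2 ^ (2 ^ (14 * i)))) ^ 2 ∧
      ∀ r m : ℕ, 1 ≤ r → r ≤ C → n ≤ 4 * m ^ 2 → m ^ 2 ≤ A * n →
      ¬ (m : ℤ) ∣ (n : ℤ) ^ 2 - n - 2 * r := by
  obtain ⟨s, hs⟩ : ∃ s, s = 13 * i := ⟨_, rfl⟩
  obtain ⟨K, hK⟩ : ∃ K, K = 10 * C * (4 * s + 1) + 2 := ⟨_, rfl⟩
  obtain ⟨W, hW⟩ : ∃ W, W = 2 ^ (2 ^ s * 2 ^ i) := ⟨_, rfl⟩
  have hM0 : 0 < M := by rw [hM]; positivity
  have hB1 : 1 ≤ B := by rw [hB]; exact Nat.mul_pos (by omega) hC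
  have h2K : 2 * K ≤ 2 ^ i := by
    have : 2 * K = 1040 * C * i + (20 * C + 4) := by rw [hK, hs]; ring
    omega
  have his : 2 ^ i ≤ 2 ^ s := Nat.pow_le_pow_right (by norm_num) (by omega)
  have hz : 2 ^ s < 2 ^ 2 ^ s := Nat.lt_two_pow_self
  have hiW : 2 ^ i < W := by
    rw [hW]
    exact lt_of_le_of_lt (Nat.le_mul_of_pos_left _ (by positivity)) Nat.lt_two_pow_self
  have hGW : GG C (2 ^ 2 ^ s) K * 2 ^ K ≤ W := by
    have := GG_le C (2 ^ s) K (2 ^ i) h2K (by omega)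
    rw [hW]
    exact_mod_cast this
  have hG0 : 0 ≤ GG C (2 ^ 2 ^ s) K := by unfold GG; positivity
  have hsK : s ≤ K := by
    have : s ≤ C * s := Nat.le_mul_of_pos_left _ hC
    have e : K = 40 * (C * s) + 10 * C + 2 := by rw [hK]; ring
    omega
  have hτ := tau_sum s i K B W (by
      have : 4 * s + 1 ≤ C * (4 * s + 1) := Nat.le_mul_of_pos_left _ hC
      have e : K = 10 * (C * (4 * s + 1)) + 2 := by rw [hK]; ring
      omega) hW (by omega) hB1 (GG C (2 ^ 2 ^ s) K) (by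
      unfold GG
      have a : (1 : ℝ) ≤ (2 * C) ^ K := one_le_pow₀ (by
        have : (1 : ℝ) ≤ C := by exact_mod_cast hC
        linarith)
      push_cast
      exact le_mul_of_one_le_right (by positivity) a)
    (le_trans (mul_le_mul_of_nonneg_left (pow_le_pow_right₀ (by norm_num) hsK) hG0) hGW)
  have hV := VV_ge C s
  rw [← hK] at hV
  obtain ⟨Y, hY⟩ : ∃ Y, Y = W * W := ⟨_, rfl⟩
  obtain ⟨x, hx⟩ : ∃ x, x = (4 * C * Y) ^ 2 := ⟨_, rfl⟩
  have hW0 : 0 < W := by omega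
  have hY0 : 0 < Y := by rw [hY]; positivity
  have hYx : Y * Y ≤ x := by
    rw [hx, pow_two]
    have : Y ≤ 4 * C * Y := Nat.le_mul_of_pos_left _ (by omega)
    exact Nat.mul_le_mul this this
  rw [← hY] at hτ
  set Rm := (Icc Y (B * Y)).filter (Rough (2 ^ 2 ^ s)) with hRm
  have hWe : W = 2 ^ (2 ^ (14 * i)) := by
    rw [hW, ← pow_add, hs]
    congr 2
    ring
  rw [← hWe, ← hY, ← hx]
  by_contra hcon
  push Not at hcon
  have hsub : ((Ico x (x + x)).filter fun t : ℕ => M ∣ t ∧ Sift C (2 ^ 2 ^ s) t) ⊆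
      (Icc 1 C ×ˢ Rm).biUnion fun rm => (Ico x (x + x)).filter fun t : ℕ =>
        (M ∣ t ∧ (rm.2 : ℤ) ∣ (t : ℤ) ^ 2 - t - 2 * (rm.1 : ℕ)) ∧ Sift C (2 ^ 2 ^ s) t := by
    intro n hn
    obtain ⟨hn1, hn2, hn3⟩ := mem_filter.mp hn
    have hn4 := mem_Ico.mp hn1
    obtain ⟨r, m, r1, r2, m1, m2, hd⟩ := hcon n hn4.1 (by omega)
    have m3 : 2 * C * Y ≤ m := by
      by_contra hc
      have a : m ^ 2 < (2 * C * Y) ^ 2 := Nat.pow_lt_pow_left (by omega) (by norm_num)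
      have b : x = 4 * (2 * C * Y) ^ 2 := by rw [hx]; ring
      omega
    have m0 : 0 < m := lt_of_lt_of_le (by positivity) m3
    have m4 : m ≤ B * Y := by
      by_contra hc
      have a : (B * Y) ^ 2 < m ^ 2 := Nat.pow_lt_pow_left (by omega) (by norm_num)
      have b : (B * Y) ^ 2 = 2 * A * (A * (x + x)) := by rw [hB, hx]; ring
      have c : A * n ≤ A * (x + x) := Nat.mul_le_mul_left _ hn4.2.le
      have d : A * (x + x) ≤ 2 * A * (A * (x + x)) := Nat.le_mul_of_pos_left _ (by omega)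
      omega
    obtain ⟨m', a1, a2, a3, a4⟩ := reduce C (2 ^ 2 ^ s) n r m r1 r2 m0 (hM ▸ hn2) hn3 hd
    refine mem_biUnion.mpr ⟨(r, m'), mem_product.mpr ⟨mem_Icc.mpr ⟨r1, r2⟩, ?_⟩,
      mem_filter.mpr ⟨hn1, ⟨hn2, a4⟩, hn3⟩⟩
    refine mem_filter.mpr ⟨mem_Icc.mpr ⟨?_, a1.trans m4⟩, a3⟩
    exact Nat.le_of_mul_le_mul_left (m3.trans a2) (by omega)
  have h1 := good_count C s K M x x hC hK.ge hM
  have h2 := (card_le_card hsub).trans card_biUnion_le
  set Z := (x : ℝ) / M * VV C (2 ^ 2 ^ s) with hZ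
  set G := GG C (2 ^ 2 ^ s) K with hG
  have h3 : (((Ico x (x + x)).filter fun t : ℕ => M ∣ t ∧ Sift C (2 ^ 2 ^ s) t).card : ℝ) ≤
      ∑ rm ∈ Icc 1 C ×ˢ Rm, (5 / 4 * Z / Y + G) * rm.2.divisors.card := by
    refine le_trans (Nat.cast_le.mpr h2) ?_
    rw [Nat.cast_sum]
    refine sum_le_sum fun rm hrm => ?_
    obtain ⟨b1, b2⟩ := mem_product.mp hrm
    obtain ⟨b3, b4⟩ := mem_filter.mp b2
    exact bad_one C s K M rm.1 rm.2 x x hC hK.ge hM (by omega) (mem_Icc.mp b1).2 Y hY0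
      (mem_Icc.mp b3).1 b4
  have hV0 : 0 < VV C (2 ^ 2 ^ s) := by
    by_contra hn
    have h3 : VV C (2 ^ 2 ^ s) * 2 ^ K ≤ 0 :=
      mul_nonpos_of_nonpos_of_nonneg (not_lt.mp hn) (by positivity)
    linarith
  have hM' : (0 : ℝ) < M := by exact_mod_cast hM0
  have hY' : (0 : ℝ) < Y := by exact_mod_cast hY0
  have hW' : (0 : ℝ) < W := by exact_mod_cast hW0
  have hZ0 : 0 ≤ Z := by positivity
  have hYW : (Y : ℝ) = W * W := by exact_mod_cast hY
  have h4 : ∑ rm ∈ Icc 1 C ×ˢ Rm, (5 / 4 * Z / Y + G) * (rm.2.divisors.card : ℝ) =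
      (5 / 4 * Z / Y + G) * (C * ∑ m ∈ Rm, (m.divisors.card : ℝ)) := by
    rw [← mul_sum, sum_product]
    simp
  have h5 : (C : ℝ) * ∑ m ∈ Rm, (m.divisors.card : ℝ) ≤ Y / 5 := by
    refine (mul_le_mul_of_nonneg_left hτ (Nat.cast_nonneg _)).trans ?_
    rw [← hYW]
    have a : (35 * 4096 * B * C : ℝ) ≤ 2 ^ i := by
      have : 35 * 4096 * B * C ≤ 2 ^ i := by omega
      exact_mod_cast this
    have b : (2 : ℝ) ^ s = 4096 ^ i * 2 ^ i := by
      rw [hs, pow_mul, ← mul_pow]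
      norm_num
    have c : (C : ℝ) * (Y * (7 * 4096 ^ (i + 1) * B / 2 ^ s)) =
        Y / 5 * ((35 * 4096 * B * C) / 2 ^ i) := by
      rw [b]
      field_simp
      ring
    rw [c]
    exact mul_le_of_le_one_right (by positivity) ((div_le_one (by positivity)).mpr a)
  have h6 : (5 / 4 * Z / Y + G) * (C * ∑ m ∈ Rm, (m.divisors.card : ℝ)) ≤ Z / 4 + G * Y / 5 := by
    refine (mul_le_mul_of_nonneg_left h5 (by positivity)).trans (le_of_eq ?_)
    field_simp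
  have h7 : G ≤ W * VV C (2 ^ 2 ^ s) := by
    calc G ≤ G * (VV C (2 ^ 2 ^ s) * 2 ^ K) := le_mul_of_one_le_right hG0 hV
      _ = G * 2 ^ K * VV C (2 ^ 2 ^ s) := by ring
      _ ≤ _ := mul_le_mul_of_nonneg_right hGW hV0.le
  have h8 : 4 * (Y * (W * VV C (2 ^ 2 ^ s))) < Z := by
    have a : (4 * M : ℝ) < W := by
      have : 4 * M < W := by omega
      exact_mod_cast this
    have b : (Y * Y : ℝ) ≤ x := by exact_mod_cast hYx
    rw [hZ, div_mul_eq_mul_div, lt_div_iff₀ hM']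
    calc 4 * ((Y : ℝ) * (W * VV C (2 ^ 2 ^ s))) * M = (4 * M) * (Y * W * VV C (2 ^ 2 ^ s)) := by ring
      _ < W * (Y * W * VV C (2 ^ 2 ^ s)) := mul_lt_mul_of_pos_right a (by positivity)
      _ = Y * (W * W) * VV C (2 ^ 2 ^ s) := by ring
      _ = Y * Y * VV C (2 ^ 2 ^ s) := by rw [← hYW]
      _ ≤ _ := mul_le_mul_of_nonneg_right b hV0.le
  have h9 : (1 : ℝ) ≤ Y := by exact_mod_cast hY0
  have h10 : G ≤ G * Y := le_mul_of_one_le_right hG0 h9
  have h11 : G * Y ≤ Y * (W * VV C (2 ^ 2 ^ s)) := by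
    rw [mul_comm]
    exact mul_le_mul_of_nonneg_left h7 hY'.le
  rw [h4] at h3
  have h12 : 0 ≤ G * Y := by positivity
  linarith


/-- the edges of `K_n` -/
def edges (n : ℕ) : Finset (Sym2 (Fin n)) := univ.filter fun e => ¬ e.IsDiag

/-- Enforcer wins the strict `(1 : b)` Avoider-Enforcer `H`-game on `K_n`: there is a set `S` of
positions (Avoider's edges, Enforcer's edges), with Avoider to move, which contains the initial one,
such that whatever edge `e` Avoider takes, Enforcer has an answer `T` (exactly `b` free edges, or all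
of them if there are fewer) leading again to `S`, and such that Avoider's graph contains a copy of `H`
whenever no free edge is left. -/
def EnforcerWins {V : Type} (H : SimpleGraph V) (n b : ℕ) : Prop :=
  ∃ S : Set (Finset (Sym2 (Fin n)) × Finset (Sym2 (Fin n))), (∅, ∅) ∈ S ∧ ∀ p ∈ S,
    (edges n \ (p.1 ∪ p.2) = ∅ →
      H.IsContained (SimpleGraph.fromEdgeSet (p.1 : Set (Sym2 (Fin n))))) ∧
    ∀ e ∈ edges n \ (p.1 ∪ p.2), ∃ T : Finset (Sym2 (Fin n)),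
      T ⊆ edges n \ (insert e (p.1 ∪ p.2)) ∧
      T.card = min b (edges n \ (insert e (p.1 ∪ p.2))).card ∧ (insert e p.1, p.2 ∪ T) ∈ S

theorem avoider {V : Type} (H : SimpleGraph V) (hH : ¬ H.CliqueFree 3) (n b A : ℕ)
    (hb : n ^ 3 ≤ A * (b + 1) ^ 2) (hn : A * (16 * A ^ 2) ^ 2 < n)
    (hd : ∀ r m : ℕ, 1 ≤ r → r ≤ 16 * A ^ 2 → n ≤ 4 * m ^ 2 → m ^ 2 ≤ A * n →
      ¬ (m : ℤ) ∣ (n : ℤ) ^ 2 - n - 2 * r) : ¬ EnforcerWins H n b := by
  classical
  rintro ⟨S, hS0, hS⟩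
  have hcard : 2 * (edges n).card + n = n * n := by
    have e1 : edges n = (⊤ : SimpleGraph (Fin n)).edgeFinset := by
      ext e
      simp [edges]
    rw [e1, SimpleGraph.card_edgeFinset_top_eq_card_choose_two, Fintype.card_fin,
      Nat.choose_two_right, Nat.mul_div_cancel' (Nat.even_mul_pred_self n).two_dvd]
    cases n with
    | zero => rfl
    | succ k =>
      rw [Nat.add_sub_cancel]
      ring
  obtain ⟨j0, h1, h2⟩ := arith n (edges n).card b A hcard hb hn hd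
  refine game (edges n) (fun x y hxy => ?_) b j0 S (fun p hp => ⟨fun h0 ht => ?_,
    (hS p hp).2⟩) h1 h2 _ 0 _ ∅ le_rfl hS0 (by simp) (by simp) ?_ ?_ (by simp)
  · simpa [edges] using hxy
  · obtain ⟨f⟩ := (hS p hp).1 h0
    obtain ⟨t, ht3⟩ := not_forall_not.1 hH
    obtain ⟨x, y, z, hxy, hxz, hyz, -⟩ := SimpleGraph.is3Clique_iff.1 ht3
    have a : ∀ u v : V, H.Adj u v → s(f u, f v) ∈ p.1 ∧ f u ≠ f v := by
      intro u v huv
      have := f.toHom.map_adj huv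
      rw [SimpleGraph.fromEdgeSet_adj] at this
      exact this
    exact ht (f x) (f y) (f z) (a x y hxy).2 (a y z hyz).2 (a x z hxz).2
      (a x y hxy).1 (a y z hyz).1 (a x z hxz).1
  · intro u v w _ _ _ h0
    simp at h0
  · intro u v w _ h0
    simp at h0

theorem params (A C i M B : ℕ) (hA : 1 ≤ A) (hC : C = 16 * A ^ 2)
    (hM : M = (2 * C).factorial * (8 * C + 1).factorial) (hB : B = 8 * A * C)
    (hi : i = 20 * C ^ 2) :
    1040 * C * i + (20 * C + 4 + 35 * 4096 * B * C + 4 * M + B) ≤ 2 ^ i := by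
  have hA2 : 1 ≤ A ^ 2 := Nat.one_le_pow _ _ hA
  have hC16 : 16 ≤ C := by omega
  have hAC : A ≤ C := by nlinarith
  have hCp : 8 * C + 1 ≤ 2 ^ C := by
    obtain ⟨k, rfl⟩ := Nat.exists_eq_add_of_le hC16
    clear * -
    induction k with
    | zero => norm_num
    | succ k ih =>
      have : 2 ^ (16 + (k + 1)) = 2 * 2 ^ (16 + k) := by ring
      omega
  have hCC : C ≤ 2 ^ C := by omega
  have hM1 : M ≤ 2 ^ (11 * C ^ 2) := by
    have a1 : (2 * C).factorial ≤ (2 ^ C) ^ (2 * C) :=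
      (Nat.factorial_le_pow _).trans (Nat.pow_le_pow_left (by omega) _)
    have a2 : (8 * C + 1).factorial ≤ (2 ^ C) ^ (8 * C + 1) :=
      (Nat.factorial_le_pow _).trans (Nat.pow_le_pow_left hCp _)
    rw [hM]
    refine (Nat.mul_le_mul a1 a2).trans ?_
    rw [← pow_add, ← pow_mul]
    refine Nat.pow_le_pow_right (by norm_num) ?_
    nlinarith
  have h3 : C ^ 3 ≤ 2 ^ (3 * C) := by
    rw [mul_comm 3 C, pow_mul]
    exact Nat.pow_le_pow_left hCC 3
  have e1 : 1040 * C * i = 20800 * C ^ 3 := by rw [hi]; ring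
  have e2 : 35 * 4096 * B * C ≤ 35 * 4096 * 8 * C ^ 3 := by
    rw [hB]
    calc 35 * 4096 * (8 * A * C) * C = 35 * 4096 * 8 * (A * C ^ 2) := by ring
      _ ≤ 35 * 4096 * 8 * (C * C ^ 2) := by gcongr
      _ = _ := by ring
  have e3 : B ≤ 8 * C ^ 3 := by
    rw [hB]
    calc 8 * A * C = 8 * (A * C) * 1 := by ring
      _ ≤ 8 * (C * C) * C := by gcongr; omega
      _ = _ := by ring
  have e4 : 20 * C + 4 ≤ 24 * C ^ 3 := by
    have : C * 1 ≤ C * C ^ 2 := Nat.mul_le_mul_left _ (Nat.one_le_pow _ _ (by omega))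
    have e : C * C ^ 2 = C ^ 3 := by ring
    omega
  have e5 : 2 ^ (3 * C) ≤ 2 ^ (11 * C ^ 2) := Nat.pow_le_pow_right (by norm_num) (by nlinarith)
  have e6 : 2 ^ (11 * C ^ 2) * 2 ^ 21 ≤ 2 ^ i := by
    rw [← pow_add]
    exact Nat.pow_le_pow_right (by norm_num) (by nlinarith)
  norm_num at e6
  omega

/-- For infinitely many `n`: for every graph `H` with a triangle and every bias `b` for which Enforcer
wins the strict `(1 : b)` Avoider-Enforcer `H`-game on `K_n`, `b (log log n)^(1/8) ≤ 5 n^(3/2)`. -/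
theorem result (n₀ : ℕ) : ∃ n ≥ n₀, ∀ (V : Type) (H : SimpleGraph V), ¬ H.CliqueFree 3 →
    ∀ b : ℕ, EnforcerWins H n b →
      (b : ℝ) * Real.log (Real.log n) ^ (1 / 8 : ℝ) ≤ 5 * (n : ℝ) ^ (3 / 2 : ℝ) := by
  obtain ⟨A, hA⟩ : ∃ A, A = n₀ + 1 := ⟨_, rfl⟩
  obtain ⟨C, hC⟩ : ∃ C, C = 16 * A ^ 2 := ⟨_, rfl⟩
  obtain ⟨i, hi⟩ : ∃ i, i = 20 * C ^ 2 := ⟨_, rfl⟩
  obtain ⟨M, hM⟩ : ∃ M, M = (2 * C).factorial * (8 * C + 1).factorial := ⟨_, rfl⟩
  obtain ⟨B, hB⟩ : ∃ B, B = 8 * A * C := ⟨_, rfl⟩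
  have hA1 : 1 ≤ A := by omega
  have hA2 : 1 ≤ A ^ 2 := Nat.one_le_pow _ _ hA1
  have hC1 : 16 ≤ C := by omega
  have hp := params A C i M B hA1 hC hM hB hi
  obtain ⟨n, hn1, hn2, hd⟩ := no_divisor' A C i M B hA1 (by omega) hM hB hp
  obtain ⟨W, hW⟩ : ∃ W, W = 2 ^ (2 ^ (14 * i)) := ⟨_, rfl⟩
  rw [← hW] at hn1 hn2
  have hiW : 2 ^ i ≤ W := by
    rw [hW]
    refine Nat.pow_le_pow_right (by norm_num) (le_trans ?_ Nat.lt_two_pow_self.le)
    omega
  have hW1 : 1 ≤ W := by rw [hW]; exact Nat.one_le_two_pow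
  have hWn : W ≤ n := by
    refine le_trans ?_ hn1
    have : (1 * 1 * (W * 1)) ^ 1 ≤ (4 * C * (W * W)) ^ 2 := by
      refine (Nat.pow_le_pow_left ?_ 1).trans (Nat.pow_le_pow_right (by positivity) (by norm_num))
      gcongr
      · omega
      · omega
    simpa using this
  have hACn : A * C ^ 2 < W := by
    have a1 : B * C = 8 * (A * C ^ 2) := by rw [hB]; ring
    have a2 : 35 * 4096 * B * C = 35 * 4096 * 8 * (A * C ^ 2) := by rw [mul_assoc, a1]; ring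
    have : 0 < A * C ^ 2 := by positivity
    omega
  have hn0 : n₀ ≤ n := by
    have : A * 1 ≤ A * C ^ 2 := Nat.mul_le_mul_left _ (Nat.one_le_pow _ _ (by omega))
    omega
  have h32 : 32 * C ^ 2 ≤ W := by
    have : 35 * 4096 * B * C = 35 * 4096 * 8 * A * C ^ 2 := by rw [hB]; ring
    have a3 : 1 * C ^ 2 ≤ A * C ^ 2 := Nat.mul_le_mul_right _ hA1
    have : 35 * 4096 * B * C = 35 * 4096 * 8 * (A * C ^ 2) := by rw [hB]; ring
    omega
  have hnW : n < 2 ^ (2 ^ (14 * i + 3)) := by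
    have a1 : 2 * (4 * C * (W * W)) ^ 2 = 32 * C ^ 2 * W ^ 4 := by ring
    have a2 : 32 * C ^ 2 * W ^ 4 ≤ W * W ^ 4 := Nat.mul_le_mul_right _ h32
    have a3 : W * W ^ 4 ≤ W ^ 8 := by
      rw [← pow_succ']
      exact Nat.pow_le_pow_right hW1 (by norm_num)
    have a4 : W ^ 8 = 2 ^ (2 ^ (14 * i + 3)) := by
      rw [hW, ← pow_mul, pow_add]
      norm_num
    omega
  refine ⟨n, hn0, fun V H hH b hb => ?_⟩
  have hb3 : A * (b + 1) ^ 2 < n ^ 3 := by
    by_contra hc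
    exact avoider H hH n b A (by omega) (by rw [← hC]; omega) (by rw [← hC]; exact hd) hb
  have hn16 : 16 ≤ n := by
    have : C ≤ C ^ 2 := Nat.le_self_pow (by norm_num) C
    have a3 : 1 * C ^ 2 ≤ A * C ^ 2 := Nat.mul_le_mul_right _ hA1
    omega
  have hnr : (16 : ℝ) ≤ n := by exact_mod_cast hn16
  have hl1 : 1 ≤ Real.log n := by
    rw [Real.le_log_iff_exp_le (by linarith)]
    have := Real.exp_one_lt_d9
    linarith
  have hll : Real.log (Real.log n) ≤ 76800 * (A : ℝ) ^ 4 := by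
    have a1 : Real.log n ≤ (2 : ℝ) ^ (14 * i + 3) := by
      have : (n : ℝ) ≤ 2 ^ (2 ^ (14 * i + 3)) := by exact_mod_cast hnW.le
      refine (Real.log_le_log (by linarith) this).trans ?_
      rw [Real.log_pow]
      push_cast
      have := Real.log_two_lt_d9
      exact mul_le_of_le_one_right (by positivity) (by linarith)
    refine (Real.log_le_log (by linarith) a1).trans ?_
    rw [Real.log_pow]
    have a2 : ((14 * i + 3 : ℕ) : ℝ) * Real.log 2 ≤ ((14 * i + 3 : ℕ) : ℝ) :=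
      mul_le_of_le_one_right (by positivity) (by have := Real.log_two_lt_d9; linarith)
    refine a2.trans ?_
    have a3 : 14 * i + 3 ≤ 76800 * A ^ 4 := by
      have : C ^ 2 = 256 * A ^ 4 := by rw [hC]; ring
      have : 1 ≤ A ^ 4 := Nat.one_le_pow _ _ hA1
      omega
    exact_mod_cast a3
  have h8 : Real.log (Real.log n) ^ (1 / 8 : ℝ) ≤ 5 * Real.sqrt A := by
    refine (Real.rpow_le_rpow (Real.log_nonneg hl1) (hll.trans ?_) (by norm_num)).trans
      (le_of_eq (b := 5 * Real.sqrt A) (a := ((5 * Real.sqrt A) ^ (8 : ℕ)) ^ (1 / 8 : ℝ)) ?_)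
    · have : Real.sqrt A ^ 8 = (A : ℝ) ^ 4 := by
        rw [show (8 : ℕ) = 2 * 4 by norm_num, pow_mul, Real.sq_sqrt (Nat.cast_nonneg _)]
      rw [mul_pow, this]
      have : (0 : ℝ) ≤ (A : ℝ) ^ 4 := by positivity
      nlinarith
    · rw [← Real.rpow_natCast, ← Real.rpow_mul (by positivity)]
      norm_num
  have hbs : (b : ℝ) * Real.sqrt A ≤ (n : ℝ) ^ (3 / 2 : ℝ) := by
    have a1 : (A : ℝ) * b ^ 2 ≤ (n : ℝ) ^ 3 := by
      have : A * b ^ 2 ≤ n ^ 3 :=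
        le_trans (Nat.mul_le_mul_left _ (Nat.pow_le_pow_left (by omega) 2)) hb3.le
      exact_mod_cast this
    have a2 : ((n : ℝ) ^ (3 / 2 : ℝ)) ^ 2 = (n : ℝ) ^ 3 := by
      rw [← Real.rpow_natCast, ← Real.rpow_mul (Nat.cast_nonneg _)]
      norm_num
    refine le_of_sq_le_sq ?_ (by positivity)
    rw [a2, mul_pow, Real.sq_sqrt (Nat.cast_nonneg _)]
    linarith
  calc (b : ℝ) * Real.log (Real.log n) ^ (1 / 8 : ℝ) ≤ b * (5 * Real.sqrt A) := by gcongr
    _ = 5 * (b * Real.sqrt A) := by ring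
    _ ≤ _ := by gcongr

end Pool.Agent.Results.MP_58cc54_co.ExplicitRate
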